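import Mathlib
import Pool.Agent.MadBlock.InfHit
import Pool.Agent.MadBlock.FinHit

/-!
# Closed infinite mad families of block subspaces over every countable field other than `F_2`

The statement uses the definitions of `Pool.Agent.MadBlock.Defs`: `Bef`, `IsBlockSeq`,
`IsBlockSubspace`, `AlmostDisjoint`, `IsMadFamily`, `Codes`, `ClosedInProduct`.
-/

namespace Pool.Agent.Results.MP_0a8ab4_lc.ClosedMadFamily

open Pool.Agent.MadBlock

/-- For every countable field `F` with at least three elements (a field with an element other than
`0` and `1`) there is an infinite mad family of block subspaces of `E = ℕ →₀ F` whose set of codes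
(all block sequences spanning a member of the family) is closed in the product space `ℕ → E`, with
`E` discrete. -/
theorem result (F : Type*) [Field F] [Countable F] (hF : ∃ a : F, a ≠ 0 ∧ a ≠ 1) :
    ∃ A : Set (Submodule F (ℕ →₀ F)), A.Infinite ∧ IsMadFamily A ∧ ClosedInProduct (Codes A) := by
  rcases finite_or_infinite F with h | h
  · exact main_fin hF
  · exact main_inf

end Pool.Agent.Results.MP_0a8ab4_lc.ClosedMadFamily
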