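import Mathlib
import Pool.Agent.MadTwo.Class
import Pool.Agent.MadBlock.InfHit
import Pool.Agent.MadBlock.FinHit

/-!
# Mad families of block subspaces in classes of Ramsey sets: the answer for every countable field

The statement uses the definitions of `Pool.Agent.MadBlock.Defs`, `Pool.Agent.MadTwo.Words` and
`Pool.Agent.MadTwo.Class`.
-/

namespace Pool.Agent.Results.MP_0a8ab4_lc.Determination

open Pool.Agent.MadBlock Pool.Agent.MadTwo

/-- Let `L` be a class of sets of reals (subsets of the spaces `ℕ → X`, `X` countable) which
contains the closed sets, is closed under projection along closed relations and consists of sets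
with the Ramsey property for located variable words.  For every countable field `F` there is an
infinite mad family of block subspaces over `F` whose set of codes belongs to `L` if and only if `F`
has at least three elements. -/
theorem result (L : ∀ X : Type, Set (Set (ℕ → X))) (hL : IsRamseyClass L) (F : Type) [Field F]
    [Countable F] :
    (∃ A : Set (Submodule F (ℕ →₀ F)), A.Infinite ∧ IsMadFamily A ∧ Codes A ∈ L (ℕ →₀ F)) ↔
      ∃ a : F, a ≠ 0 ∧ a ≠ 1 := by
  constructor
  · rintro ⟨A, hinf, hA, hmem⟩
    by_contra hcon
    push Not at hcon
    exact no_mad_in_class hL hcon hA hinf.nontrivial hmem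
  · intro hF
    have h : ∃ A : Set (Submodule F (ℕ →₀ F)), A.Infinite ∧ IsMadFamily A ∧
        ClosedInProduct (Codes A) := by
      rcases finite_or_infinite F with h | h
      · exact main_fin hF
      · exact main_inf
    obtain ⟨A, h1, h2, h3⟩ := h
    exact ⟨A, h1, h2, hL.closed _ _ h3⟩

end Pool.Agent.Results.MP_0a8ab4_lc.Determination
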