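import Mathlib
import Pool.Agent.MadTwo.Full

/-!
# Every infinite mad family of block subspaces over the field with two elements is full

The statement uses the definitions `IsMadFamily` of `Pool.Agent.MadBlock.Defs` and `HFam`, `IsFull`
of `Pool.Agent.MadTwo.Full`.
-/

namespace Pool.Agent.Results.MP_0a8ab4_lc.FullOverF2

open Pool.Agent.MadBlock Pool.Agent.MadTwo

/-- For every infinite mad family `A` of block subspaces over the field with two elements, the
family `H(A)` of block sequences meeting infinitely many members of `A` is nonempty and full. -/
theorem result (A : Set (Submodule (ZMod 2) (ℕ →₀ ZMod 2))) (hA : IsMadFamily A)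
    (hinf : A.Infinite) : (HFam A).Nonempty ∧ IsFull (HFam A) :=
  ⟨hFam_nonempty hA hinf, isFull_hFam hA⟩

end Pool.Agent.Results.MP_0a8ab4_lc.FullOverF2
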