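import Mathlib
import Pool.Agent.SLV.Main

/-!
# Infinite mad families of block subspaces in the Solovay model: the answer for every countable field

`κ` is inaccessible and `B = BL κ.ord.ToType` is the regular open algebra of the Levy collapse
`Coll(ω, < κ)` (`Lv`: finite functions `p` on `κ × ω` with `p (α, n) < α`).

* `BSet B` is the class `V^B` of all `B`-names, with the Boolean values `eqv` of equality and `mem`
  of membership (`Pool.Agent.SLV.LRDefs`).
* `Lr B α` is the `α`-th level of the hierarchy of `L(R)`, computed in `V^B`: the power set of `ω`
  together with all subsets of earlier levels which are definable (formulas `Fml`, satisfaction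
  `sat`). `inLR S` is the Boolean value of `S ∈ L(R)`. The ordinals of `V[G]` are those of `V`.
* `E = ℕ →₀ F`. The sequences of vectors in `V^B` are given by the names `Nm B E`. A sequence `x` is
  coded by the subset `codeN e x` of `ω`, the set of all `e s`, `s` an initial segment of `x`, where
  `e` is any injective coding of finite sequences of vectors. `madB e S` is the Boolean value of:
  the sequences with code in `S` are exactly the block sequences which span members of some infinite
  mad family of block subspaces. The Boolean value `bval` of a Borel statement on names of sequences
  is the largest element of `B` such that the statement holds at comeager many of the ultrafilters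
  containing it.

So the theorem says: in `V^B`, hence in `V[G]` for every generic `G`, some element of `L(R)` is (the
set of codes of) an infinite mad family of block subspaces over `F` if `F` has at least three
elements, and no element of `L(R)` is one if `F` has two elements.
-/

namespace Pool.Agent.Results.MP_0a8ab4_lc.SolovayModel

open SLV

/-- Let `κ` be inaccessible, `B` the (nontrivial) regular open algebra of `Coll(ω, < κ)`, `F` a
countable field, and `e` an injective coding of the finite sequences of vectors by natural numbers.
If `F` has at least three elements, there is `S` in `V^B` for which both `S ∈ L(R)` and `S codes an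
infinite mad family of block subspaces over F` have the Boolean value `⊤`. If `F` has two elements,
the conjunction of these two statements has the Boolean value `⊥` for every `S` in `V^B`. -/
theorem result (κ : Cardinal.{0}) (hκ : κ.IsInaccessible) (F : Type) [Field F] [Countable F]
    (e : List (ℕ →₀ F) → ℕ) (he : Function.Injective e) :
    (⊥ : BL κ.ord.ToType) ≠ ⊤ ∧
    ((∃ a : F, a ≠ 0 ∧ a ≠ 1) →
      ∃ S : BSet (BL κ.ord.ToType), inLR S = ⊤ ∧ madB e S = ⊤) ∧
    ((∀ a : F, a = 0 ∨ a = 1) →
      ∀ S : BSet (BL κ.ord.ToType), inLR S ⊓ madB e S = ⊥) := by
  refine ⟨?_, fun hF => q_LRA _ F hF e he, fun hF S => q_LRB _ (q_IK κ hκ) F hF e S⟩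
  intro h
  have h1 : (⟨fun _ => none, by simp, by simp⟩ : Lv κ.ord.ToType) ∈
      (⊤ : BL κ.ord.ToType) := trivial
  rw [← h] at h1
  exact h1

end Pool.Agent.Results.MP_0a8ab4_lc.SolovayModel
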